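import Pool.Agent.Q20.ChiralInt.Final

/-!
The intersection property for the generating triple of `PSL(2,q)`.
-/

namespace Pool.Agent.Results.MP_5bb224_al.IntersectionProperty

open Matrix Q20.ChiralInt

/-- **Positive answer to Q1.**  Let `p` be an odd prime and `e₁, e₂ > 1` odd and coprime, `F` a
field with `p ^ (e₁ e₂)` elements, `K₁`, `K₂` its subfields with `p ^ e₁`, `p ^ e₂` elements,
`jᵢ` a generator of the multiplicative group of `Kᵢ`, `ωᵢ = jᵢ + jᵢ⁻¹`, and `r` a square root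
(any of the two) of `Ω = ω₁² ω₂² - 4 (ω₁² + ω₂²)`.  If `σ₁, σ₂, σ₃` are the elements of
`SL(2,F)` with the given matrices, then in `PSL(2,F)` the intersection of the subgroups
generated by `σ₁, σ₂` and by `σ₂, σ₃` is the subgroup generated by `σ₂`. -/
theorem result {p e₁ e₂ : ℕ} (hp : p.Prime) (hp2 : Odd p) (he₁ : 1 < e₁) (he₁' : Odd e₁)
    (he₂ : 1 < e₂) (he₂' : Odd e₂) (hcop : Nat.Coprime e₁ e₂)
    {F : Type*} [Field F] (hF : Nat.card F = p ^ (e₁ * e₂))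
    (K₁ K₂ : Subfield F) (hK₁ : Nat.card K₁ = p ^ e₁) (hK₂ : Nat.card K₂ = p ^ e₂)
    (j₁ : K₁ˣ) (hj₁ : ∀ y : K₁ˣ, y ∈ Subgroup.zpowers j₁)
    (j₂ : K₂ˣ) (hj₂ : ∀ y : K₂ˣ, y ∈ Subgroup.zpowers j₂)
    (ω₁ ω₂ Ω r : F)
    (hω₁ : ω₁ = ((j₁ : K₁) : F) + ((j₁ : K₁) : F)⁻¹)
    (hω₂ : ω₂ = ((j₂ : K₂) : F) + ((j₂ : K₂) : F)⁻¹)
    (hΩ : Ω = ω₁ ^ 2 * ω₂ ^ 2 - 4 * (ω₁ ^ 2 + ω₂ ^ 2)) (hr : r ^ 2 = Ω)
    (σ₁ σ₂ σ₃ : SpecialLinearGroup (Fin 2) F)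
    (hσ₁ : (σ₁ : Matrix (Fin 2) (Fin 2) F) = mat₁ ω₁)
    (hσ₂ : (σ₂ : Matrix (Fin 2) (Fin 2) F) = mat₂ ω₁)
    (hσ₃ : (σ₃ : Matrix (Fin 2) (Fin 2) F) = mat₃ ω₁ ω₂ r) :
    Subgroup.closure {(QuotientGroup.mk σ₁ : ProjectiveSpecialLinearGroup (Fin 2) F),
        QuotientGroup.mk σ₂} ⊓
      Subgroup.closure {(QuotientGroup.mk σ₂ : ProjectiveSpecialLinearGroup (Fin 2) F),
        QuotientGroup.mk σ₃} =
      Subgroup.zpowers (QuotientGroup.mk σ₂ : ProjectiveSpecialLinearGroup (Fin 2) F) := by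
  have hfact : Fact p.Prime := ⟨hp⟩
  have hfin : Finite F := by
    apply Nat.finite_of_card_ne_zero
    rw [hF]
    exact pow_ne_zero _ hp.ne_zero
  have h2p : 2 < p := by
    have := hp.two_le
    obtain ⟨k, hk⟩ := hp2
    omega
  have h3e₁ : 3 ≤ e₁ := by
    obtain ⟨k, hk⟩ := he₁'
    omega
  have h3e₂ : 3 ≤ e₂ := by
    obtain ⟨k, hk⟩ := he₂'
    omega
  exact main ⟨_, hF⟩ (S := ⟨h2p, h3e₁, h3e₂, hcop, hK₁, hK₂, hj₁, hj₂⟩) hω₁ hω₂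
    (hr.trans hΩ) σ₁ σ₂ σ₃ hσ₁ hσ₂ hσ₃

end Pool.Agent.Results.MP_5bb224_al.IntersectionProperty
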